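import Mathlib

/-! Gluing cube roots to a covering, and lifting a homotopy. -/

set_option autoImplicit false

namespace Pool.Agent.MP_6600f1_ag.h57

open Set Topology unitInterval

/-- the cube roots of unity -/
abbrev Mu : Type := {z : ℂ // z ^ 3 = 1}

instance : Finite Mu :=
  ((Polynomial.nthRoots 3 (1 : ℂ)).finite_toSet.subset fun _ hz =>
    (Polynomial.mem_nthRoots (by norm_num)).2 hz : {z : ℂ | z ^ 3 = 1}.Finite)

open Classical in
/-- multiplication by `ω` if that is a cube root of unity -/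
noncomputable def act (ω : ℂ) (v : Mu) : Mu :=
  if h : ω ^ 3 = 1 then ⟨ω * v, by rw [mul_pow, h, v.2, one_mul]⟩ else v

theorem act_val {ω : ℂ} (h : ω ^ 3 = 1) (v : Mu) : (act ω v : ℂ) = ω * v := by
  rw [act, dif_pos h]

variable {M U ι : Type*} [TopologicalSpace M] [TopologicalSpace U]

theorem glue0 (D : ι → Set M) (hD : ∀ i, IsOpen (D i)) (hc : ∀ p, ∃ i, p ∈ D i)
    (ω : ι → ι → M → ℂ) (c1 : ∀ i j, ContinuousOn (ω i j) (D i ∩ D j))
    (c2 : ∀ i j, ∀ p ∈ D i ∩ D j, ω i j p ^ 3 = 1)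
    (c3 : ∀ i j k, ∀ p ∈ D i ∩ D j ∩ D k, ω i j p * ω j k p = ω i k p)
    (Fix : Set M) (c4 : ∀ i j, ∀ p ∈ D i ∩ D j, p ∈ Fix → ω i j p = 1)
    (H : C(I × U, M)) (h0 : ∀ u, H (0, u) ∈ Fix) :
    ∃ τ : ι → U → ℂ, (∀ i, ContinuousOn (τ i) {u | H (1, u) ∈ D i}) ∧ (∀ i u, τ i u ^ 3 = 1) ∧
      ∀ i j u, H (1, u) ∈ D i ∩ D j → τ j u = ω i j (H (1, u)) * τ i u := by
  choose ix hix using hc
  have self : ∀ i, ∀ p ∈ D i, ω i i p = 1 := fun i p hp => by
    have h1 := c2 i i p ⟨hp, hp⟩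
    have h2 := c3 i i i p ⟨⟨hp, hp⟩, hp⟩
    have h3 : ω i i p ≠ 0 := fun c => by simp [c] at h1
    exact mul_left_cancel₀ h3 (h2.trans (mul_one _).symm)
  let Z : FiberBundleCore ι M Mu :=
    { baseSet := D
      isOpen_baseSet := hD
      indexAt := ix
      mem_baseSet_at := hix
      coordChange := fun i j p v => act (ω i j p) v
      coordChange_self := fun i p hp v => Subtype.ext (by
        rw [act_val (c2 i i p ⟨hp, hp⟩), self i p hp, one_mul])
      continuousOn_coordChange := fun i j => by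
        rw [IsInducing.subtypeVal.continuousOn_iff]
        refine ContinuousOn.congr (f := fun q : M × Mu => ω i j q.1 * q.2)
          (((c1 i j).comp continuousOn_fst fun _ h => h.1).mul (by fun_prop)) fun q hq => ?_
        exact act_val (c2 i j _ hq.1) _
      coordChange_comp := fun i j k p hp v => Subtype.ext (by
        rw [act_val (c2 j k p ⟨hp.1.2, hp.2⟩), act_val (c2 i j p hp.1),
          act_val (c2 i k p ⟨hp.1.1, hp.2⟩), ← c3 i j k p hp]
        ring) }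
  have cov : IsCoveringMap Z.proj := FiberBundle.isCoveringMap (F := Mu) (E := Z.Fiber)
  let one : Mu := ⟨1, one_pow 3⟩
  have hH : Continuous fun u => H (0, u) := by fun_prop
  have sec : Continuous fun u => (⟨H (0, u), one⟩ : Z.TotalSpace) := by
    refine continuous_iff_continuousAt.2 fun u => ?_
    rw [FiberBundle.continuousAt_totalSpace]
    refine ⟨hH.continuousAt, (continuousAt_const (y := one)).congr ?_⟩
    filter_upwards [hH.continuousAt.preimage_mem_nhds ((hD _).mem_nhds (hix (H (0, u))))] with v hv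
    refine Subtype.ext (Eq.symm ?_)
    have := c4 _ _ _ ⟨hix (H (0, v)), hv⟩ (h0 v)
    exact (act_val (c2 _ _ _ ⟨hix (H (0, v)), hv⟩) one).trans (by rw [this, one_mul])
  let L := cov.liftHomotopy H ⟨_, sec⟩ fun _ => rfl
  have hL : ∀ u, (L (1, u)).1 = H (1, u) := fun u =>
    congrFun (cov.liftHomotopy_lifts H ⟨_, sec⟩ fun _ => rfl) (1, u)
  refine ⟨fun i u => ((Z.localTriv i (L (1, u))).2 : ℂ), fun i => ?_, fun i u => (Z.localTriv i (L (1, u))).2.2,
    fun i j u hu => ?_⟩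
  · refine (continuous_subtype_val.comp continuous_snd).comp_continuousOn
      ((Z.localTriv i).continuousOn.comp (by fun_prop) fun u hu => ?_)
    change (L (1, u)).1 ∈ D i
    rwa [hL]
  · rw [← hL] at hu ⊢
    have := Z.coordChange_comp (ix (L (1, u)).1) i j _ ⟨⟨hix _, hu.1⟩, hu.2⟩ (L (1, u)).2
    exact (congrArg Subtype.val this).symm.trans (act_val (c2 i j _ hu) _)

/-- the principal cube root -/
noncomputable def P3 (z : ℂ) : ℂ := Complex.exp (Complex.log z / 3)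

theorem P3_cube {z : ℂ} (h : z ≠ 0) : P3 z ^ 3 = z := by
  rw [P3, ← Complex.exp_nat_mul, Nat.cast_ofNat, mul_div_cancel₀ _ (by norm_num), Complex.exp_log h]

theorem P3_ne (z : ℂ) : P3 z ≠ 0 := Complex.exp_ne_zero _

theorem P3_cont : ContinuousOn P3 Complex.slitPlane := fun _ hz =>
  (Complex.continuous_exp.continuousAt.comp
    ((continuousAt_clog hz).div_const 3)).continuousWithinAt

theorem P3_im {z : ℂ} (h : z ∈ Complex.slitPlane) (h0 : z.im = 0) : (P3 z).im = 0 := by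
  have : z.arg = 0 := Complex.arg_eq_zero_iff.2
    ⟨((Complex.mem_slitPlane_iff.1 h).resolve_right fun c => c h0).le, h0⟩
  rw [P3, Complex.exp_im]
  simp [Complex.log_im, this]

theorem P3_conj {z : ℂ} (h : z ∈ Complex.slitPlane) :
    P3 (starRingEnd ℂ z) = starRingEnd ℂ (P3 z) := by
  rw [P3, P3, Complex.log_conj _ (Complex.slitPlane_arg_ne_pi h), ← Complex.exp_conj, map_div₀,
    map_ofNat]

theorem real_cube {z : ℂ} (h : z ^ 3 = 1) (h0 : z.im = 0) : z = 1 := by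
  obtain ⟨x, rfl⟩ : ∃ x : ℝ, z = x := ⟨z.re, Complex.ext rfl h0⟩
  have : x ^ 3 = 1 := by exact_mod_cast h
  rw [(Odd.pow_inj (n := 3) (by decide)).1 (this.trans (one_pow 3).symm)]
  rfl

/-- cube roots of the `f t` on the start of a homotopy that ends in `Fix` -/
theorem glue (D : ι → Set M) (hD : ∀ t, IsOpen (D t)) (hc : ∀ p, ∃ t, p ∈ D t)
    (f : ι → M → ℂ) (f1 : ∀ t, ContinuousOn (f t) (D t)) (f2 : ∀ t, ∀ p ∈ D t, f t p ≠ 0)
    (G : ι → ι → M → ℂ) (g1 : ∀ t s, ContinuousOn (G t s) (D t ∩ D s))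
    (g2 : ∀ t s, ∀ p ∈ D t ∩ D s, G t s p ^ 3 * f t p = f s p)
    (g3 : ∀ t s r, ∀ p ∈ D t ∩ D s ∩ D r, G t s p * G s r p = G t r p)
    (Fix : Set M) (x1 : ∀ t, ∀ p ∈ D t, p ∈ Fix → (f t p).im = 0)
    (x2 : ∀ t s, ∀ p ∈ D t ∩ D s, p ∈ Fix → (G t s p).im = 0)
    (H : C(I × U, M)) (h0 : ∀ u, H (0, u) ∈ Fix) (t : ι) :
    ∃ g : U → ℂ, ContinuousOn g {u | H (1, u) ∈ D t} ∧
      ∀ u, H (1, u) ∈ D t → g u ^ 3 = f t (H (1, u)) := by
  classical
  let e : Bool → ℂ := fun b => if b then 1 else -1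
  have e3 : ∀ b, e b ^ 3 * e b = 1 := fun b => by cases b <;> simp [e] <;> norm_num
  have ei : ∀ b, (e b).im = 0 := fun b => by cases b <;> simp [e]
  let D' : ι × Bool → Set M := fun i => D i.1 ∩ (fun p => e i.2 * f i.1 p) ⁻¹' Complex.slitPlane
  let c : ι × Bool → M → ℂ := fun i p => e i.2 * P3 (e i.2 * f i.1 p)
  have hD' : ∀ i, IsOpen (D' i) := fun i =>
    (continuousOn_const.mul (f1 i.1)).isOpen_inter_preimage (hD _) Complex.isOpen_slitPlane
  have cov : ∀ t, ∀ p ∈ D t, p ∈ D' (t, true) ∨ p ∈ D' (t, false) := fun t p hp =>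
    (Complex.mem_slitPlane_or_neg_mem_slitPlane (f2 t p hp)).imp
      (fun h => ⟨hp, by simpa [e] using h⟩) fun h => ⟨hp, by simpa [e] using h⟩
  have k1 : ∀ i, ContinuousOn (c i) (D' i) := fun i => continuousOn_const.mul
    (P3_cont.comp ((continuousOn_const.mul (f1 i.1)).mono inter_subset_left) fun _ h => h.2)
  have k2 : ∀ i, ∀ p ∈ D' i, c i p ^ 3 = f i.1 p := fun i p hp => by
    rw [mul_pow, P3_cube (Complex.slitPlane_ne_zero hp.2), ← mul_assoc, e3, one_mul]
  have k3 : ∀ i, ∀ p ∈ D' i, c i p ≠ 0 := fun i p hp h =>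
    f2 _ p hp.1 (by rw [← k2 i p hp, h]; norm_num)
  have k4 : ∀ i, ∀ p ∈ D' i, p ∈ Fix → (c i p).im = 0 := fun i p hp hF => by
    have := P3_im hp.2 (by rw [Complex.mul_im, ei, x1 _ p hp.1 hF]; ring)
    simp only [c]
    rw [Complex.mul_im, ei, this]
    ring
  have k5 : ∀ i j, ∀ p ∈ D' i ∩ D' j, (G i.1 j.1 p * c i p / c j p) ^ 3 = 1 := fun i j p hp => by
    rw [div_pow, mul_pow, k2 i p hp.1, k2 j p hp.2, g2 _ _ p ⟨hp.1.1, hp.2.1⟩,
      div_self (f2 _ p hp.2.1)]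
  obtain ⟨τ, t1, t2, t3⟩ := glue0 D' hD'
    (fun p => (hc p).elim fun t ht => (cov t p ht).elim (fun h => ⟨_, h⟩) fun h => ⟨_, h⟩)
    (fun i j p => G i.1 j.1 p * c i p / c j p)
    (fun i j => (((g1 _ _).mono fun _ h => ⟨h.1.1, h.2.1⟩).mul
      ((k1 i).mono inter_subset_left)).div ((k1 j).mono inter_subset_right) fun p h => k3 j p h.2)
    k5
    (fun i j k p hp => by
      have := k3 j p hp.1.2
      rw [← g3 i.1 j.1 k.1 p ⟨⟨hp.1.1.1, hp.1.2.1⟩, hp.2.1⟩]
      field_simp)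
    Fix
    (fun i j p hp hF => real_cube (k5 i j p hp) (by
      simp [Complex.div_im, Complex.mul_im, k4 i p hp.1 hF, k4 j p hp.2 hF,
        x2 _ _ p ⟨hp.1.1, hp.2.1⟩ hF]))
    H h0
  have hH : Continuous fun u => H (1, u) := by fun_prop
  have self : ∀ p ∈ D t, G t t p = 1 := fun p hp => by
    have h1 := g2 t t p ⟨hp, hp⟩
    have h3 : G t t p ≠ 0 := fun c => f2 t p hp (by simpa [c] using h1.symm)
    exact mul_left_cancel₀ h3 ((g3 t t t p ⟨⟨hp, hp⟩, hp⟩).trans (mul_one _).symm)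
  let g : U → ℂ := fun u => if H (1, u) ∈ D' (t, true) then τ (t, true) u * c (t, true) (H (1, u))
    else τ (t, false) u * c (t, false) (H (1, u))
  have eq : ∀ b u, H (1, u) ∈ D' (t, b) → g u = τ (t, b) u * c (t, b) (H (1, u)) := by
    intro b u hu
    simp only [g]
    split_ifs with h
    · have := k3 _ _ hu
      rw [t3 (t, true) (t, b) u ⟨h, hu⟩, self _ hu.1]
      field_simp
    · cases b
      · rfl
      · exact absurd hu h
  have loc : ∀ u, H (1, u) ∈ D t → ∃ b, H (1, u) ∈ D' (t, b) := fun u hu =>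
    (cov t _ hu).elim (fun h => ⟨_, h⟩) fun h => ⟨_, h⟩
  refine ⟨g, fun u hu => ?_, fun u hu => ?_⟩
  · obtain ⟨b, hb⟩ := loc u hu
    have o : IsOpen {u | H (1, u) ∈ D' (t, b)} := (hD' _).preimage hH
    exact ((((t1 (t, b)).mul ((k1 (t, b)).comp hH.continuousOn fun _ h => h)).congr
      (eq b)).continuousAt (o.mem_nhds hb)).continuousWithinAt
  · obtain ⟨b, hb⟩ := loc u hu
    rw [eq b u hb, mul_pow, t2, one_mul, k2 _ _ hb]

/-- a loop that winds once round the origin has no cube root -/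
theorem no_root (g : ℝ → ℂ) (hg : Continuous g) (per : g (2 * Real.pi) = g 0) (a b : ℂ)
    (ha : a ≠ 0) (hb : b = 1 ∨ b = -1)
    (h : ∀ θ : ℝ, g θ ^ 3 / (a * Complex.exp (b * θ * Complex.I)) ∈ Complex.slitPlane) : False := by
  let q : ℝ → ℂ := fun θ => g θ ^ 3 / (a * Complex.exp (b * θ * Complex.I))
  have n0 : ∀ θ : ℝ, a * Complex.exp (b * θ * Complex.I) ≠ 0 := fun θ =>
    mul_ne_zero ha (Complex.exp_ne_zero _)
  have hq : Continuous q := (hg.pow 3).div (by fun_prop) n0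
  let r : ℝ → ℂ := fun θ => P3 a * Complex.exp (b * θ * Complex.I / 3) * P3 (q θ)
  have r0 : ∀ θ, r θ ≠ 0 := fun θ =>
    mul_ne_zero (mul_ne_zero (P3_ne _) (Complex.exp_ne_zero _)) (P3_ne _)
  have r3 : ∀ θ, r θ ^ 3 = g θ ^ 3 := fun θ => by
    rw [mul_pow, mul_pow, P3_cube ha, P3_cube (Complex.slitPlane_ne_zero (h θ)),
      ← Complex.exp_nat_mul, Nat.cast_ofNat, mul_div_cancel₀ _ (by norm_num),
      mul_div_cancel₀ _ (n0 θ)]
  have hr : Continuous r := (continuous_const.mul (by fun_prop)).mul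
    (P3_cont.comp_continuous hq h)
  let k : ℝ → Mu := fun θ => ⟨g θ / r θ, by
    rw [div_pow, ← r3, div_self (pow_ne_zero 3 (r0 θ))]⟩
  have hk : Continuous k := (hg.div hr r0).subtype_mk _
  have e : g (2 * Real.pi) / r (2 * Real.pi) = g 0 / r 0 := congrArg Subtype.val
    (((IsLocallyConstant.iff_continuous k).2 hk).apply_eq_of_preconnectedSpace (2 * Real.pi) 0)
  have g0 : g 0 ≠ 0 := fun c => pow_ne_zero 3 (r0 0) (by rw [r3, c]; norm_num)
  rw [per, div_eq_div_iff (r0 _) (r0 _), mul_right_inj' g0] at e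
  have e1 : Complex.exp (b * (2 * Real.pi : ℝ) * Complex.I) = 1 := by
    rcases hb with rfl | rfl
    · simp
    · simp [Complex.exp_neg]
  have e2 : q (2 * Real.pi) = q 0 := by simp only [q, per, e1]; simp
  simp only [r, e2, mul_left_inj' (P3_ne _), mul_right_inj' (P3_ne _)] at e
  rw [Complex.ofReal_zero, mul_zero, zero_mul, zero_div, Complex.exp_zero, eq_comm,
    Complex.exp_eq_one_iff] at e
  obtain ⟨n, hn⟩ := e
  have hp : (2 * Real.pi * Complex.I : ℂ) ≠ 0 := Complex.two_pi_I_ne_zero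
  have : b = 3 * n := by
    refine mul_right_cancel₀ hp ?_
    push_cast at hn
    linear_combination 3 * hn
  rcases hb with rfl | rfl
  · have : (1 : ℤ) = 3 * n := by exact_mod_cast this
    omega
  · have : (-1 : ℤ) = 3 * n := by exact_mod_cast this
    omega

end Pool.Agent.MP_6600f1_ag.h57
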